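import Pool.Agent.N236.UR.RTow4

/-!
# Morton–Silverman in all dimensions with constants which do not depend on the degree: towers

Let `p₁ ≠ p₂` be primes, `D ≥ 1`, and `b = bad D p₁ p₂` the product of all `p₁ ^ f - 1`, `p₂ ^ f - 1`
(`1 ≤ f ≤ D`) and of those of `p₁`, `p₂` which are at most `D + 1` (`b = 4` for `D = 1`, `{p₁, p₂} = {2, 3}`:
prime to `b` means odd).

The class `Tower K b s d n` consists of endomorphisms of degree `d` of `n`-dimensional projective space
over `K`: on the projective line the compositions of invertible linear substitutions over `K` and of `j`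
power maps with exponents prime to `b`, `1 ≤ j ≤ s`; with a member `T` also all skew products
`(u, z) ↦ (T u, F (u, z))` for which `z ↦ F (u, z)` is a composition of affine maps and of `j` power maps
with exponents prime to `b`, `1 ≤ j ≤ s`, for every `u ≠ 0`; with `T₁`, `T₂` also the join
`(u, w) ↦ (T₁ u, T₂ w)` (`d` prime to `b`); and everything conjugate to these over `K`.

Part 1 of the theorem: for all `D`, `p₁`, `p₂`, `s`, `n`, `r` there are `N ≥ 1` and `M` such that for every
number field `K` of degree at most `D` and every endomorphism `Φ` of `n`-dimensional projective space over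
`K`, of ANY degree `d ≥ 2`, whose `r`-th iterate is in the class, all `K`-rational preperiodic points are
fixed by the `N`-th iterate, and if `K` has a real embedding, then there are at most `M` of them. The
numbers `N` and `M` do not depend on the degree `d`.

Part 2 is an explicit family: for `A` in `GL₂ (K)`, `a_k ≠ 0` in `K` and ARBITRARY forms `g_k` of degree
`d` (prime to `b`) in `x_0, …, x_{k - 1}` over `K` the endomorphism

`(A₀₀ x_0 ^ d + A₀₁ x_1 ^ d : A₁₀ x_0 ^ d + A₁₁ x_1 ^ d : a_2 x_2 ^ d + g_2 : … : a_m x_m ^ d + g_m)`.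

Over `ℚ`: for every `m` there is a constant `M (m)` which bounds the number of rational preperiodic points
of all these endomorphisms of all odd degrees `d ≥ 3` together.

Proof. Preperiodic points lie over preperiodic points of the base. These are fixed by the `N`-th iterate,
so that the `N`-th iterate acts on the fibre, a line; there it is a composition of Moebius maps and of at
least `1` and at most `s N` power maps, and the theorem on the projective line (hand-in
MP_c076ed_nt.DegreeIndependent), whose constants depend only on the number of the power maps, applies. For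
joins the fibre is the line joining two fixed points, and the return map is `t ↦ c t ^ (d ^ N)`.

Parts (on the projective line) by helpers 56, 78, 87, 106, 160, 222, 278, 281, 318, 360, 514, 622, 727,
803, 823, 878.
-/

set_option autoImplicit false

namespace Pool.Agent.Results.MP_13bc7b_nt.DegreeIndependentTowers

/-- The product of all `p₁ ^ f - 1` and `p₂ ^ f - 1` with `1 ≤ f ≤ D` and of those of `p₁`, `p₂` which
are at most `D + 1`. -/
def bad (D p₁ p₂ : ℕ) : ℕ :=
  (if p₁ ≤ D + 1 then p₁ else 1) * (if p₂ ≤ D + 1 then p₂ else 1) *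
    ∏ f ∈ Finset.Icc 1 D, ((p₁ ^ f - 1) * (p₂ ^ f - 1))

/-- Self-maps of the affine line: compositions of affine maps and of exactly `j` power maps `z ↦ z ^ m`
whose exponents `m ≥ 2` are prime to `b`. -/
inductive Fibre {K : Type} [Field K] (b : ℕ) : ℕ → (K → K) → Prop
  | affine (c e : K) (hc : c ≠ 0) : Fibre b 0 (fun z => c * z + e)
  | power (m : ℕ) (hm : 2 ≤ m) (h : Nat.Coprime m b) : Fibre b 1 (fun z => z ^ m)
  | comp (f g : K → K) (j k : ℕ) (hf : Fibre b j f) (hg : Fibre b k g) : Fibre b (j + k) (f ∘ g)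

/-- Homogeneous self-maps of `K ^ 2` of degree `d` (endomorphisms of the projective line): compositions of
invertible linear maps and of exactly `j` maps `(x, y) ↦ (x ^ m, y ^ m)` whose exponents `m ≥ 2` are prime
to `b`. -/
inductive Line {K : Type} [Field K] (b : ℕ) : ℕ → ℕ → ((Fin (1 + 1) → K) → (Fin (1 + 1) → K)) → Prop
  | linear (A : Matrix (Fin 2) (Fin 2) K) (hA : A.det ≠ 0) : Line b 0 1 (fun v => A.mulVec v)
  | power (m : ℕ) (hm : 2 ≤ m) (h : Nat.Coprime m b) : Line b 1 m (fun v i => v i ^ m)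
  | comp (f g : (Fin (1 + 1) → K) → (Fin (1 + 1) → K)) (j k d e : ℕ) (hf : Line b j d f)
      (hg : Line b k e g) : Line b (j + k) (d * e) (f ∘ g)

/-- The class of homogeneous self-maps of `K ^ (n + 1)` of degree `d` (endomorphisms of `n`-dimensional
projective space over `K`): dimension zero (`point`); the maps `Line` with at least one and at most `s`
power maps (`line`); skew products over members of the class with fibre maps of the class `Fibre` with at
least one and at most `s` power maps (`skew`); joins of two members (`join`); conjugates (`conj`). -/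
inductive Tower (K : Type) [Field K] (b s d : ℕ) :
    (n : ℕ) → ((Fin (n + 1) → K) → (Fin (n + 1) → K)) → Prop
  | point (a : K) (ha : a ≠ 0) : Tower K b s d 0 (fun v _ => a * v 0 ^ d)
  | line (T : (Fin (1 + 1) → K) → (Fin (1 + 1) → K)) (j : ℕ) (hj : 1 ≤ j) (hjs : j ≤ s)
      (hT : Line b j d T) : Tower K b s d 1 T
  | skew (n : ℕ) (T : (Fin (n + 1) → K) → (Fin (n + 1) → K)) (F : (Fin (n + 1 + 1) → K) → K)
      (hT : Tower K b s d n T) (hF : ∀ (a : K) (x : Fin (n + 1 + 1) → K), F (a • x) = a ^ d * F x)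
      (hfib : ∀ u : Fin (n + 1) → K, u ≠ 0 → ∃ j : ℕ, 1 ≤ j ∧ j ≤ s ∧
        Fibre b j (fun z : K => F (Fin.snoc u z)))
      (hF1 : F (Fin.snoc 0 1) ≠ 0) :
      Tower K b s d (n + 1) (fun x => Fin.snoc (T (Fin.init x)) (F x))
  | join (m n : ℕ) (T₁ : (Fin (m + 1) → K) → (Fin (m + 1) → K))
      (T₂ : (Fin (n + 1) → K) → (Fin (n + 1) → K)) (h₁ : Tower K b s d m T₁) (h₂ : Tower K b s d n T₂)
      (hd : Nat.Coprime d b) : Tower K b s d (m + 1 + n) (fun x =>
        (Fin.append (T₁ fun i => x (Fin.castAdd (n + 1) i)) (T₂ fun i => x (Fin.natAdd (m + 1) i)) :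
          Fin (m + 1 + (n + 1)) → K))
  | conj (n : ℕ) (T : (Fin (n + 1) → K) → (Fin (n + 1) → K))
      (A : Matrix (Fin (n + 1)) (Fin (n + 1)) K) (hT : Tower K b s d n T) (hA : A.det ≠ 0) :
      Tower K b s d n (fun v => A⁻¹.mulVec (T (A.mulVec v)))

/-- The value of a tuple of forms at a vector. -/
noncomputable def value {K : Type} [Field K] {n : ℕ}
    (Φ : Fin (n + 1) → MvPolynomial (Fin (n + 1)) K) (v : Fin (n + 1) → K) : Fin (n + 1) → K :=
  fun j => MvPolynomial.eval v (Φ j)

/-- The `K`-rational preperiodic points of a tuple of forms in projective space. -/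
def preperiodic {K : Type} [Field K] {n : ℕ} (Φ : Fin (n + 1) → MvPolynomial (Fin (n + 1)) K) :
    Set (Projectivization K (Fin (n + 1) → K)) :=
  {P | ∃ m k : ℕ, m < k ∧ ∃ c : K, c ≠ 0 ∧ (value Φ)^[k] P.rep = c • (value Φ)^[m] P.rep}

/-- All preperiodic points are fixed by the `N`-th iterate, and if `K` has a real embedding, then there
are at most `M` of them. -/
def Bounded {K : Type} [Field K] {n : ℕ} (Φ : Fin (n + 1) → MvPolynomial (Fin (n + 1)) K)
    (N M : ℕ) : Prop :=
  (∀ P ∈ preperiodic Φ, ∃ c : K, c ≠ 0 ∧ (value Φ)^[N] P.rep = c • P.rep) ∧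
    (Nonempty (K →+* ℝ) → (preperiodic Φ).Finite ∧ (preperiodic Φ).ncard ≤ M)

open Pool.Agent.N236.UR Pool.Agent.N236.UR.Sym Pool.Agent.N236.UR.Rs
open scoped LinearAlgebra.Projectivization

section comparison

variable {K : Type} [Field K] {b s d n : ℕ}

theorem fibre_pow {j : ℕ} {f : K → K} (h : Fibre b j f) :
    ∃ φ : ℙ K (K × K) → ℙ K (K × K), PowMoeb b j φ ∧ ∀ z : K, φ (aff z) = aff (f z) := by
  induction h with
  | affine c e hc => exact affR b hc e
  | power m hm h =>
    refine ⟨powP m, PowMoeb.power m hm h, ?_⟩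
    intro z
    unfold aff
    rw [powP_mk (by omega) (one_ne' z)]
    congr 1
    unfold pw
    simp
  | comp f g j k hf hg ihf ihg =>
    obtain ⟨φ, h1, h2⟩ := ihf
    obtain ⟨ψ, h3, h4⟩ := ihg
    exact ⟨φ ∘ ψ, PowMoeb.comp _ _ _ _ h1 h3, fun z => by
      rw [Function.comp_apply, h4, h2, Function.comp_apply]⟩

theorem line_pow {j : ℕ} {T : (Fin (1 + 1) → K) → (Fin (1 + 1) → K)} (h : Line b j d T) :
    HomV T d ∧ ∃ φ : ℙ K (K × K) → ℙ K (K × K), PowMoeb b j φ ∧
      ∀ (v : Fin (1 + 1) → K) (hv : (v 0, v 1) ≠ 0) (hTv : (T v 0, T v 1) ≠ 0),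
        φ (Projectivization.mk K (v 0, v 1) hv) = Projectivization.mk K (T v 0, T v 1) hTv := by
  induction h with
  | linear A hA =>
    have hpair : ∀ v : Fin (1 + 1) → K, ((A.mulVec v) 0, (A.mulVec v) 1) = lin A (v 0, v 1) := by
      intro v
      unfold lin
      simp [Matrix.mulVec, dotProduct, Fin.sum_univ_two]
    refine ⟨⟨fun a v => ?_, fun v hv h0 => ?_⟩, _, PowMoeb.mobius (matEquiv A hA), ?_⟩
    · rw [pow_one]
      exact Matrix.mulVec_smul A a v
    · have h2 : lin A (v 0, v 1) = 0 := by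
        have h3 : A.mulVec v = 0 := h0
        rw [← hpair, h3]
        rfl
      exact lin_ne_zero hA (pair_ne hv) h2
    · intro v hv hTv
      simp only [Projectivization.map_mk]
      congr 1
      exact (hpair v).symm
  | power m hm h =>
    refine ⟨⟨fun a v => ?_, fun v hv h0 => ?_⟩, powP m, PowMoeb.power m hm h, ?_⟩
    · funext i
      simp only [Pi.smul_apply, smul_eq_mul, mul_pow]
    · apply hv
      funext i
      by_contra hi
      exact pow_ne_zero m hi (congrFun h0 i)
    · intro v hv hTv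
      rw [powP_mk (by omega) hv]
      rfl
  | comp f g j k d e hf hg ihf ihg =>
    obtain ⟨hF, φ, h1, h2⟩ := ihf
    obtain ⟨hG, ψ, h3, h4⟩ := ihg
    refine ⟨⟨fun a v => ?_, fun v hv => hF.2 _ (hG.2 v hv)⟩, φ ∘ ψ, PowMoeb.comp _ _ _ _ h1 h3, ?_⟩
    · rw [Function.comp_apply, Function.comp_apply, hG.1, hF.1, ← pow_mul, mul_comm e d]
    · intro v hv hTv
      have hv0 : v ≠ 0 := by
        rintro rfl
        exact hv rfl
      rw [Function.comp_apply, h4 v hv (pair_ne (hG.2 v hv0)), h2 (g v) _ hTv]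
      rfl

theorem tower_tow {T : (Fin (n + 1) → K) → (Fin (n + 1) → K)} (h : Tower K b s d n T) :
    Tow K b s d n T := by
  induction h with
  | point a ha => exact Tow.point a ha
  | line T j hj hjs hT =>
    obtain ⟨h1, φ, h2, h3⟩ := line_pow hT
    exact Tow.line T φ j hj hjs h1 h2 h3
  | skew n T F hT hF hfib hF1 ih =>
    refine Tow.ext n T F ih hF ⟨fun u hu => ?_, hF1⟩
    obtain ⟨j, hj, hjs, h⟩ := hfib u hu
    obtain ⟨φ, h1, h2⟩ := fibre_pow h
    exact ⟨φ, j, hj, hjs, h1, h2⟩
  | join m n T₁ T₂ h₁ h₂ hd ih₁ ih₂ => exact Tow.join m n T₁ T₂ ih₁ ih₂ hd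
  | conj n T A hT hA ih =>
    exact Tow.conj n T _ A A⁻¹ ih (Matrix.mul_nonsing_inv A (isUnit_iff_ne_zero.mpr hA)) fun v => rfl

end comparison

open MvPolynomial

theorem result :
    (∀ D p₁ p₂ s n r : ℕ, p₁.Prime → p₂.Prime → p₁ ≠ p₂ → 1 ≤ r → ∃ N M : ℕ, 1 ≤ N ∧
      ∀ (K : Type) [Field K] [NumberField K], Module.finrank ℚ K ≤ D → ∀ d : ℕ, 2 ≤ d →
        ∀ Φ : Fin (n + 1) → MvPolynomial (Fin (n + 1)) K, (∀ j, (Φ j).IsHomogeneous d) →
          Tower K (bad D p₁ p₂) s (d ^ r) n (value Φ)^[r] → Bounded Φ N M) ∧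
    (∀ D p₁ p₂ n : ℕ, p₁.Prime → p₂.Prime → p₁ ≠ p₂ → ∃ N M : ℕ, 1 ≤ N ∧
      ∀ (K : Type) [Field K] [NumberField K], Module.finrank ℚ K ≤ D → ∀ d : ℕ, 2 ≤ d →
        Nat.Coprime d (bad D p₁ p₂) →
        ∀ (A : Matrix (Fin 2) (Fin 2) K) (a : Fin (n + 2) → K)
          (g Φ : Fin (n + 2) → MvPolynomial (Fin (n + 2)) K), A.det ≠ 0 →
          (∀ k : Fin (n + 2), 2 ≤ (k : ℕ) → a k ≠ 0) →
          (∀ k : Fin (n + 2), 2 ≤ (k : ℕ) → (g k).IsHomogeneous d ∧ ∀ i ∈ (g k).vars, i < k) →
          Φ 0 = C (A 0 0) * X 0 ^ d + C (A 0 1) * X 1 ^ d →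
          Φ 1 = C (A 1 0) * X 0 ^ d + C (A 1 1) * X 1 ^ d →
          (∀ k : Fin (n + 2), 2 ≤ (k : ℕ) → Φ k = C (a k) * X k ^ d + g k) → Bounded Φ N M) := by
  refine ⟨?_, ?_⟩
  · intro D p₁ p₂ s n r h1 h2 hne hr
    obtain ⟨N, M, hN, H⟩ := tow_root D p₁ p₂ h1 h2 hne s n r hr
    refine ⟨N, M, hN, ?_⟩
    intro K _ _ hK d hd Φ hΦ hT
    have hb := H K hK d hd (aN Φ) (eval_hom hΦ) (tower_tow hT)
    exact ⟨fun P hP => hb.1 P.rep P.rep_nonzero hP, hb.2⟩
  · intro D p₁ p₂ n h1 h2 hne
    obtain ⟨N, M, hN, H⟩ := tow_main D p₁ p₂ h1 h2 hne 1 (n + 1)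
    refine ⟨N, M, hN, ?_⟩
    intro K _ _ hK d hd hcop A a g Φ hA ha hg h0 h1' h2'
    have hT : Tow K (badM D p₁ p₂) 1 d (n + 1) (aN Φ) := by
      refine block_tri hd hcop hA n (aN Φ) a (fun k v => eval v (g k)) ?_ ?_ ?_
      · intro v
        change eval v (Φ 0) = _
        rw [h0]
        simp
      · intro v
        change eval v (Φ 1) = _
        rw [h1']
        simp
      · intro k hk
        refine ⟨ha k hk, ?_, ?_, ?_⟩
        · intro v
          change eval v (Φ k) = _
          rw [h2' k hk]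
          simp
        · intro c v
          exact eval_smul_hom (hg k hk).1 c v
        · intro v w hvw
          exact eval_dep (hg k hk).2 hvw
    have hb := H K hK d hd (n + 1) le_rfl (aN Φ) hT
    exact ⟨fun P hP => hb.1 P.rep P.rep_nonzero hP, hb.2⟩

end Pool.Agent.Results.MP_13bc7b_nt.DegreeIndependentTowers
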