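import Mathlib
import Pool.Agent.Results.MP_13bc7b_nt.GenericCount
import Pool.Agent.N938.TD.All5

/-!
# MP_13bc7b_nt: preperiodic points along equidistributed and thin sequences of parameters

The starting result `GenericCount` shows: in every algebraic family `F_t` (`t = (t_1, …, t_m)`) of
endomorphisms of `ℙ^N` over a number field `k`, 100% of the rational members, when the parameters
`t = (v_1 / v_0, …, v_m / v_0)` are ordered by boxes, have exactly as many preperiodic points of degree
at most `B` over `k` as the generic member, and this number is finite.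

Here we prove this along all sequences of parameters which are equidistributed modulo all integers, with
one exceptional set for all families over all number fields. Let `x_{i j}(n)` (`i, j = 0, 1, 2, …`) be
sequences of integers such that every finite number of them is jointly equidistributed modulo every
integer, when `n` runs through subsets `S₁(N)` of `(N, 2N]`, `N → ∞`, and also when `n` runs through
subsets `S₂(N)` of `(N, 2N]`. For a number field `k` with the integral basis `ω_0, …, ω_{r-1}` we
consider the integers of `k`

  `v_l(n) = ∑_j x_{l j}(n) ω_j`,  `l = 0, 1, 2, …`.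

**Theorem.** There is ONE set `E` of positive integers, of relative density zero in the sets `S₁(N)`
and in the sets `S₂(N)`, such that for ALL number fields `k ⊂ ℂ`, all integral bases of `k`, all `N`,
`d ≥ 2`, `m`, ALL families `F_0, …, F_N ∈ k[t_1, …, t_m][x_0, …, x_N]` of forms of degree `d` in `x`
which define an endomorphism of `ℙ^N` over `k(t_1, …, t_m)`, and all `B`: for all but finitely many `n`
outside `E` the member at `t = (v_1(n) / v_0(n), …, v_m(n) / v_0(n))` is an endomorphism of `ℙ^N` with
exactly as many preperiodic points of degree at most `B` over `k` as the generic member, and this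
number is finite. The set `E` depends only on the `x_{i j}` and the `S_i(N)`.

The hypothesis holds for thin sequences. Let `P_{i j}` be generalised polynomials
`P(n) = ∑ a_x n ^ x` (finitely many real exponents, real coefficients) with distinct leading exponents
which are positive and not integers and have positive coefficients, for example
`P_{i j}(n) = n ^ ((i + j)² + i + √2)`. Then `x_{i j}(n) = ⌊P_{i j}(n)⌋` satisfies the hypothesis for
`S₁(N) = (N, 2N]` and for the set `S₂(N)` of the primes in `(N, 2N]`. Only `N` of the roughly
`N ^ (sum of the leading exponents)` vectors of a box occur, so this is not a consequence of the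
theorem for boxes.

Proof. Polynomials in equidistributed integers are rarely divisible by large primes, and Hilbert's
irreducibility theorem holds along equidistributed sequences (`Pool.Agent.N455.HT`,
`Pool.Agent.N455.TX`). The transfer of the starting file to the generic member uses only these two
properties of the density (`Pool.Agent.N938.TD`). There are countably many families over number fields,
and a diagonal argument gives one set for all of them. Generalised polynomials are equidistributed by
exponential sums (`Pool.Agent.N666.TM`).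
-/

set_option autoImplicit false

namespace Pool.Agent.Results.MP_13bc7b_nt.ThinFamilies

open NumberField Filter Topology
open Pool.Agent.Results.MP_13bc7b_nt.GenericCount (IsMorphism preper generic special)

/-- Every finite part of the array `x i j` of sequences of integers is equidistributed modulo all
integers over the sets `S N`, `N → ∞`. -/
def Equidistributed (S : ℕ → Finset ℕ) (x : ℕ → ℕ → ℕ → ℤ) : Prop :=
  ∀ (T : Finset (ℕ × ℕ)) (q : ℕ), 1 ≤ q → ∀ r : ℕ × ℕ → ℤ,
    Tendsto (fun N : ℕ => ({n : ℕ | n ∈ S N ∧ ∀ p ∈ T, x p.1 p.2 n ≡ r p [ZMOD q]}.ncard : ℝ) /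
      (S N).card) atTop (𝓝 (1 / (q : ℝ) ^ T.card))

/-- `E` has density zero relative to the sets `S N`. -/
def NullIn (S : ℕ → Finset ℕ) (E : Set ℕ) : Prop :=
  ∀ ε : ℝ, 0 < ε → ∃ N₀ : ℕ, ∀ N : ℕ, N₀ ≤ N →
    ({n : ℕ | n ∈ S N ∧ n ∈ E}.ncard : ℝ) ≤ ε * (S N).card

/-- The vector of the integers `v_l(n) = ∑_j x_{l j}(n) ω_j` of `k`, `l = 0, …, m`. -/
noncomputable def vector {k : Type} [Field k] {r : ℕ} (ω : Module.Basis (Fin r) ℤ (𝓞 k))
    (x : ℕ → ℕ → ℕ → ℤ) (m n : ℕ) : Fin (m + 1) → 𝓞 k :=
  fun l => ∑ j : Fin r, x l j n • ω j

/-- `c` is the largest exponent of the generalised polynomial `∑ a_x n ^ x`; it is positive and not an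
integer and has a positive coefficient. -/
def Admissible (F : Finset ℝ) (a : ℝ → ℝ) (c : ℝ) : Prop :=
  c ∈ F ∧ (∀ x ∈ F, x ≤ c) ∧ 0 < c ∧ (∀ m : ℕ, c ≠ m) ∧ 0 < a c

/-- The integer parts of the values at `n` of the generalised polynomials
`P_{i j}(n) = ∑_{x ∈ F i j} a_{i j x} n ^ x`. -/
noncomputable def value (F : ℕ → ℕ → Finset ℝ) (a : ℕ → ℕ → ℝ → ℝ) (i j n : ℕ) : ℤ :=
  ⌊∑ x ∈ F i j, a i j x * (n : ℝ) ^ x⌋

/-- **Preperiodic points of bounded degree along equidistributed sequences of parameters, with one
exceptional set for all number fields, integral bases, families of endomorphisms of projective spaces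
and degrees; generalised polynomials are equidistributed over the integers and over the primes.** -/
theorem result :
    (∀ (x : ℕ → ℕ → ℕ → ℤ) (S₁ S₂ : ℕ → Finset ℕ), (∀ N, S₁ N ⊆ Finset.Ioc N (2 * N)) →
      (∀ N, S₂ N ⊆ Finset.Ioc N (2 * N)) → Equidistributed S₁ x → Equidistributed S₂ x →
      ∃ E : Set ℕ, NullIn S₁ E ∧ NullIn S₂ E ∧
        ∀ (k : Subfield ℂ) [NumberField k] (r : ℕ) (ω : Module.Basis (Fin r) ℤ (𝓞 k)) (N d : ℕ),
          2 ≤ d → ∀ (m : ℕ)
          (G : Fin (N + 1) → MvPolynomial (Fin (N + 1)) (MvPolynomial (Fin m) k)),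
          (∀ i, (G i).IsHomogeneous d) → IsMorphism (generic G) → ∀ B : ℕ,
            (preper (generic G) B).Finite ∧
            {n : ℕ | n ∉ E ∧ ¬ (vector ω x m n 0 ≠ 0 ∧
              IsMorphism (special (vector ω x m n) G) ∧
              (preper (special (vector ω x m n) G) B).encard =
                (preper (generic G) B).encard)}.Finite) ∧
    (∀ (F : ℕ → ℕ → Finset ℝ) (a : ℕ → ℕ → ℝ → ℝ) (c : ℕ → ℕ → ℝ),
      (∀ i j, Admissible (F i j) (a i j) (c i j)) →
      (Function.Injective fun q : ℕ × ℕ => c q.1 q.2) →
      Equidistributed (fun N => Finset.Ioc N (2 * N)) (value F a) ∧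
      Equidistributed (fun N => (Finset.Ioc N (2 * N)).filter Nat.Prime) (value F a)) := by
  refine ⟨?_, fun F a c h hc => Pool.Agent.N938.TD.equiA_fl F a c h hc⟩
  intro x S₁ S₂ hS₁ hS₂ h₁ h₂
  obtain ⟨E, h1, h2, h3⟩ := Pool.Agent.N938.TD.all5 hS₁ hS₂ h₁ h₂
  refine ⟨E, h1, h2, ?_⟩
  intro k _ r ω N d hd m G hG hmor B
  obtain ⟨g1, g2⟩ := h3 k r ω N d hd m G hG hmor B
  refine ⟨g1, g2.subset ?_⟩
  rintro n ⟨hnE, hn⟩
  refine ⟨hnE, ?_⟩
  rintro v rfl hgood
  exact hn hgood

end Pool.Agent.Results.MP_13bc7b_nt.ThinFamilies
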