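import Mathlib
import Pool.Agent.N741.UN.Cnt

/-!
# Unicritical polynomials of large degree over all number fields of bounded degree

Let `κ ≥ 1` and `ε > 0`. There are `R` and `δ > 0` such that for all `Y ≥ 1` and all but at most
`Y ^ ε` pairs `(d, t)`, where `R ≤ d ≤ Y ^ δ` and `t` is an algebraic number of degree at most `κ` and
of absolute height at most `Y ^ (d * (d - 1))`, the following holds: if `K` is ANY number field of
degree at most `κ` and `f = a z ^ d + b` a polynomial over `K` with `a b ^ (d - 1) = t`, then `f` has at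
most `2 m` preperiodic points in `K`, where `m` is the number of the `d`-th roots of unity in `K`.

(A polynomial with a single finite critical point is conjugate by a translation to `a z ^ d + b`, and
`t = a b ^ (d - 1) ≠ 0` determines its class over the algebraic numbers.) The bound `2 m` is sharp: for all
`x`, `y` in `K` with `x ^ d ≠ y ^ d` some `a z ^ d + b` fixes `x` and `y`, and then all `ζ x`, `ζ y` are
preperiodic. So for `K = ℚ` there are at most two rational preperiodic points if `d` is odd, and at most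
four if `d` is even, with few exceptions.

Method. The height of the tuple of the preperiodic points in `K`, after the conjugation to
`t w ^ d + 1`, is at most `(2 Y) ^ [K : ℚ]`. If `x`, `y`, `z` are preperiodic with different `d`-th powers
then `s (x / y) ^ d + s' (z / y) ^ d = 1` with `s`, `s'` of height at most a power of `Y`, so the ratios of
the preperiodic points, for all `K`, `f`, `d` together, are in a set of at most `Y ^ ε` numbers by the
theorem on sums of powers over all number fields of bounded degree (project HK, determinant method in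
an ultraproduct, `Pool/Agent/N741/HB/Thm4.lean`); finally `t` is a function of `d` and three ratios.
-/

set_option autoImplicit false

namespace Pool.Agent.Results.MP_13bc7b_nt.UnicriticalAllFields

open Pool.Agent.N741.UN Pool.Agent.Y902.GN

/-- the polynomial map `z ↦ a z ^ d + b` -/
def unicritical {K : Type} [Field K] (a b : K) (d : ℕ) (z : K) : K := a * z ^ d + b

/-- the elements of `K` with finite forward orbit -/
def preperiodic {K : Type} (f : K → K) : Set K := {z | (Set.range fun n : ℕ => f^[n] z).Finite}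

/-- the pairs `(d, t)` with `R ≤ d ≤ Y ^ δ` such that for some number field `K` of degree at most `κ`
in `ℂ` and some `a z ^ d + b` over `K`, `a, b ≠ 0`, with `a b ^ (d - 1) = t` of absolute height at most
`Y ^ (d (d - 1))`, there are more than `2 m` preperiodic points in `K`, `m` the number of the
`d`-th roots of unity in `K` (Mathlib's height `Height.mulHeight₁` is relative to `K`) -/
def exceptional (κ R : ℕ) (δ : ℝ) (Y : ℕ) : Set (ℕ × ℂ) :=
  {p | R ≤ p.1 ∧ (p.1 : ℝ) ≤ (Y : ℝ) ^ δ ∧ ∃ (K : Type) (_ : Field K) (_ : NumberField K)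
    (σ : K →+* ℂ) (a b : K), Module.finrank ℚ K ≤ κ ∧ a ≠ 0 ∧ b ≠ 0 ∧
    σ (a * b ^ (p.1 - 1)) = p.2 ∧ Height.mulHeight₁ (a * b ^ (p.1 - 1)) ≤
      ((Y : ℝ) ^ (p.1 * (p.1 - 1))) ^ Module.finrank ℚ K ∧
    ((2 * Nat.card {ζ : K // ζ ^ p.1 = 1} : ℕ) : ℕ∞) < (preperiodic (unicritical a b p.1)).encard}

/-- the `d`-th roots of unity -/
theorem rou_finite {K : Type} [Field K] {d : ℕ} (hd : 1 ≤ d) : Finite {ζ : K // ζ ^ d = 1} := by
  classical
  refine Set.Finite.subset (Polynomial.nthRoots d (1 : K)).toFinset.finite_toSet fun ζ hζ => ?_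
  rw [Finset.mem_coe, Multiset.mem_toFinset, Polynomial.mem_nthRoots (by omega)]
  exact hζ

/-- the elements with a given `d`-th power -/
theorem fibre_card {K : Type} [Field K] {d : ℕ} (hd : 1 ≤ d) (S : Finset K) (c : K)
    (hS : ∀ x ∈ S, x ≠ 0 ∧ x ^ d = c) : S.card ≤ Nat.card {ζ : K // ζ ^ d = 1} := by
  classical
  have := rou_finite (K := K) hd
  rcases S.eq_empty_or_nonempty with h0 | ⟨x0, hx0⟩
  · rw [h0, Finset.card_empty]
    exact Nat.zero_le _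
  have hc : c ≠ 0 := by
    rw [← (hS x0 hx0).2]
    exact pow_ne_zero _ (hS x0 hx0).1
  rw [← Nat.card_eq_finsetCard]
  refine Nat.card_le_card_of_injective (fun x : S => (⟨x.1 / x0, ?_⟩ : {ζ : K // ζ ^ d = 1})) ?_
  · rw [div_pow, (hS _ x.2).2, (hS x0 hx0).2, div_self hc]
  · intro x x' h
    have h1 : x.1 / x0 = x'.1 / x0 := congrArg Subtype.val h
    rw [div_left_inj' (hS x0 hx0).1] at h1
    exact Subtype.ext h1

/-- more than `2 m` nonzero elements have three different `d`-th powers -/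
theorem three_classes {K : Type} [Field K] {d : ℕ} (hd : 1 ≤ d) (S : Finset K)
    (h0 : ∀ x ∈ S, x ≠ 0) (hS : 2 * Nat.card {ζ : K // ζ ^ d = 1} < S.card) :
    ∃ x ∈ S, ∃ y ∈ S, ∃ z ∈ S, x ^ d ≠ y ^ d ∧ x ^ d ≠ z ^ d ∧ y ^ d ≠ z ^ d := by
  classical
  have h1 : S.card ≤ Nat.card {ζ : K // ζ ^ d = 1} * (S.image fun x => x ^ d).card := by
    refine Finset.card_le_mul_card_image _ _ fun c _ => ?_
    refine fibre_card hd _ c fun x hx => ?_
    obtain ⟨h2, h3⟩ := Finset.mem_filter.1 hx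
    exact ⟨h0 x h2, h3⟩
  have h2 : 2 < (S.image fun x => x ^ d).card := by
    by_contra h
    push Not at h
    have := h1.trans (Nat.mul_le_mul_left _ h)
    omega
  obtain ⟨a, ha, b, hb, c, hc, hab, hac, hbc⟩ := Finset.two_lt_card_iff.1 h2 |> fun
    ⟨a, b, c, ha, hb, hc, hab, hac, hbc⟩ => (⟨a, ha, b, hb, c, hc, hab, hac, hbc⟩ :
      ∃ a ∈ S.image (fun x => x ^ d), ∃ b ∈ S.image (fun x => x ^ d),
        ∃ c ∈ S.image (fun x => x ^ d), a ≠ b ∧ a ≠ c ∧ b ≠ c)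
  obtain ⟨x, hx, rfl⟩ := Finset.mem_image.1 ha
  obtain ⟨y, hy, rfl⟩ := Finset.mem_image.1 hb
  obtain ⟨z, hz, rfl⟩ := Finset.mem_image.1 hc
  exact ⟨x, hx, y, hy, z, hz, hab, hac, hbc⟩

/-- the orbits of finitely many preperiodic points, normalised -/
theorem normalise {K : Type} [Field K] {a b : K} (hb : b ≠ 0) {d m : ℕ} (hd : 1 ≤ d)
    (h : ((m : ℕ) : ℕ∞) < (preperiodic (unicritical a b d)).encard) :
    ∃ S : Set K, S.Finite ∧ (∀ w ∈ S, a * b ^ (d - 1) * w ^ d + 1 ∈ S) ∧ m < S.ncard := by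
  classical
  obtain ⟨f, hf⟩ : ∃ f, f = unicritical a b d := ⟨_, rfl⟩
  rw [← hf] at h
  have h1 : ((m + 1 : ℕ) : ℕ∞) ≤ (preperiodic f).encard := by
    push_cast
    exact Order.add_one_le_of_lt h
  obtain ⟨S0, hS0, hS0c⟩ := Set.exists_subset_encard_eq h1
  have hS0f : S0.Finite := Set.finite_of_encard_eq_coe hS0c
  obtain ⟨S1, hS1⟩ : ∃ S1 : Set K, S1 = ⋃ z ∈ S0, Set.range fun n : ℕ => f^[n] z := ⟨_, rfl⟩
  have hS1f : S1.Finite := by
    rw [hS1]
    exact hS0f.biUnion fun z hz => hS0 hz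
  have hsub : S0 ⊆ S1 := by
    intro z hz
    rw [hS1, Set.mem_iUnion₂]
    exact ⟨z, hz, 0, rfl⟩
  have hinv : ∀ z ∈ S1, f z ∈ S1 := by
    intro z hz
    rw [hS1, Set.mem_iUnion₂] at hz ⊢
    obtain ⟨z0, hz0, n, rfl⟩ := hz
    exact ⟨z0, hz0, n + 1, Function.iterate_succ_apply' f n z0⟩
  refine ⟨(fun z => z / b) '' S1, hS1f.image _, ?_, ?_⟩
  · rintro _ ⟨z, hz, rfl⟩
    refine ⟨f z, hinv z hz, ?_⟩
    show f z / b = a * b ^ (d - 1) * (z / b) ^ d + 1
    have e1 : f z = a * z ^ d + b := by rw [hf]; rfl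
    have e2 : b ^ d = b ^ (d - 1) * b := by
      rw [← pow_succ]
      congr 1
      omega
    have e3 : b ^ (d - 1) ≠ 0 := pow_ne_zero _ hb
    rw [e1, div_pow, e2]
    field_simp
  · rw [Set.ncard_image_of_injective _ (fun x y hxy => (div_left_inj' hb).1 hxy)]
    have h2 : S0.ncard ≤ S1.ncard := Set.ncard_le_ncard hsub hS1f
    have h3 : S0.ncard = m + 1 := by
      rw [Set.ncard_def, hS0c, ENat.toNat_natCast]
    omega

/-- `t` is a function of `d` and of three ratios -/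
theorem param {κ R : ℕ} {δ : ℝ} {Y d Z : ℕ} {K : Type} [Field K] [NumberField K] {t : K}
    {S : Set K} (h : Inv κ R δ Y d t S) (hY : 1 ≤ Y) (hδ : 0 ≤ δ) (hZ : Z = (16 * Y) ^ κ)
    (hκ : 1 ≤ κ) (σ : K →+* ℂ) (hS : 2 * Nat.card {ζ : K // ζ ^ d = 1} < S.ncard) (L : Set ℂ)
    (hL : L = Rat κ R δ Z) :
    (σ t = 0 - 1 ∨ ∃ q ∈ L, σ t = q - 1) ∨
    ∃ α β γ : ℂ, (α ∈ L ∨ ∃ q ∈ L, ∃ q' ∈ L, α = q * q') ∧
      (β ∈ L ∨ ∃ q ∈ L, ∃ q' ∈ L, β = q * q') ∧ (γ ∈ L ∨ ∃ q ∈ L, ∃ q' ∈ L, γ = q * q') ∧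
      σ t = (α - β) / (1 - γ ^ d) * (α - (α - β) / (1 - γ ^ d)) ^ (d - 1) := by
  classical
  by_cases h0 : (0 : K) ∈ S
  · left
    by_cases h1 : t + 1 = 0
    · left
      have : t = -1 := eq_neg_of_add_eq_zero_left h1
      rw [this, map_neg, map_one]
      ring
    · right
      refine ⟨σ (t + 1), by rw [hL]; exact h.zero hY hδ hZ hκ σ h0 h1, ?_⟩
      rw [map_add, map_one]
      ring
  right
  have hd2 := h.d2
  have hne : ∀ x ∈ S, x ≠ 0 := fun x hx hx0 => h0 (hx0 ▸ hx)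
  obtain ⟨S', hS'⟩ := h.fin.exists_finset_coe
  obtain ⟨x, hx, y, hy, z, hz, hxy, hxz, hyz⟩ := three_classes (d := d) (by omega) S'
    (fun x hx => hne x (by rw [← hS']; exact hx))
    (by rw [← Set.ncard_coe_finset, hS']; exact hS)
  have hx : x ∈ S := by rw [← hS']; exact hx
  have hy : y ∈ S := by rw [← hS']; exact hy
  have hz : z ∈ S := by rw [← hS']; exact hz
  -- ratios of elements with different `d`-th powers
  have key1 : ∀ u ∈ S, ∀ v ∈ S, u ^ d ≠ v ^ d → σ (u / v) ∈ L := by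
    intro u hu v hv huv
    obtain ⟨w, hw, h1, h2⟩ : ∃ w ∈ S, u ^ d ≠ w ^ d ∧ w ^ d ≠ v ^ d := by
      by_cases c1 : u ^ d = x ^ d
      · by_cases c2 : v ^ d = y ^ d
        · exact ⟨z, hz, by rw [c1]; exact hxz, by rw [c2]; exact hyz.symm⟩
        · exact ⟨y, hy, by rw [c1]; exact hxy, fun h => c2 h.symm⟩
      · by_cases c2 : v ^ d = x ^ d
        · by_cases c3 : u ^ d = y ^ d
          · exact ⟨z, hz, by rw [c3]; exact hyz, by rw [c2]; exact hxz.symm⟩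
          · exact ⟨y, hy, c3, by rw [c2]; exact hxy.symm⟩
        · exact ⟨x, hx, c1, fun h => c2 h.symm⟩
    rw [hL]
    exact h.three hY hδ hZ hκ σ hu hw hv (hne u hu) (hne w hw) (hne v hv) h1 huv h2
  -- all ratios
  have key2 : ∀ u ∈ S, ∀ v ∈ S, σ (u / v) ∈ L ∨ ∃ q ∈ L, ∃ q' ∈ L, σ (u / v) = q * q' := by
    intro u hu v hv
    by_cases huv : u ^ d = v ^ d
    · right
      obtain ⟨w, hw, h1⟩ : ∃ w ∈ S, u ^ d ≠ w ^ d := by
        by_cases c1 : u ^ d = x ^ d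
        · exact ⟨y, hy, by rw [c1]; exact hxy⟩
        · exact ⟨x, hx, c1⟩
      refine ⟨_, key1 u hu w hw h1, _, key1 w hw v hv (by rw [← huv]; exact h1.symm), ?_⟩
      rw [← map_mul]
      congr 1
      have := hne w hw
      have := hne v hv
      field_simp
    · exact Or.inl (key1 u hu v hv huv)
  have hFx := h.inv x hx
  have hFy := h.inv y hy
  refine ⟨σ ((t * x ^ d + 1) / x), σ ((t * y ^ d + 1) / x), σ (y / x), key2 _ hFx _ hx,
    key2 _ hFy _ hx, key2 _ hy _ hx, ?_⟩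
  rw [← map_one σ, ← map_pow, ← map_sub, ← map_sub, ← map_div₀, ← map_sub, ← map_pow, ← map_mul]
  congr 1
  have hx0 := hne x hx
  have e1 : 1 - (y / x) ^ d ≠ 0 := by
    rw [div_pow, sub_ne_zero]
    intro h1
    apply hxy
    have h2 : x ^ d ≠ 0 := pow_ne_zero _ hx0
    rw [eq_div_iff h2, one_mul] at h1
    exact h1
  have e2 : x ^ d = x ^ (d - 1) * x := by
    rw [← pow_succ]
    congr 1
    omega
  have e3 : ((t * x ^ d + 1) / x - (t * y ^ d + 1) / x) / (1 - (y / x) ^ d) = t * x ^ (d - 1) := by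
    rw [div_eq_iff e1, div_pow]
    have h2 : x ^ (d - 1) ≠ 0 := pow_ne_zero _ hx0
    rw [e2]
    field_simp
    ring
  have e4 : (t * x ^ d + 1) / x - t * x ^ (d - 1) = 1 / x := by
    rw [e2]
    field_simp
    ring
  rw [e3, e4, div_pow, one_pow]
  have h2 : x ^ (d - 1) ≠ 0 := pow_ne_zero _ hx0
  field_simp

/-- **Few unicritical polynomials have more than `2 m` preperiodic points.** -/
theorem result (κ : ℕ) (ε : ℝ) (hκ : 1 ≤ κ) (hε : 0 < ε) :
    ∃ (R : ℕ) (δ : ℝ), 0 < δ ∧ ∀ Y : ℕ, 1 ≤ Y →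
    (exceptional κ R δ Y).Finite ∧ ((exceptional κ R δ Y).ncard : ℝ) ≤ (Y : ℝ) ^ ε := by
  classical
  obtain ⟨η, hη⟩ : ∃ η : ℝ, η = ε / (60 * κ) := ⟨_, rfl⟩
  have hκR : (1 : ℝ) ≤ κ := by exact_mod_cast hκ
  have hη0 : 0 < η := by rw [hη]; positivity
  obtain ⟨R1, δ1, hδ1, H⟩ := rat_card κ η hη0
  refine ⟨max R1 100, min δ1 (ε / 4), lt_min hδ1 (by positivity), fun Y hY =>
    fin_of_bound _ _ fun T hT => ?_⟩
  obtain ⟨δ, hδ⟩ : ∃ δ, δ = min δ1 (ε / 4) := ⟨_, rfl⟩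
  have hδ0 : 0 < δ := by rw [hδ]; exact lt_min hδ1 (by positivity)
  have hδε : δ ≤ ε / 4 := by rw [hδ]; exact min_le_right _ _
  have hδδ : δ ≤ δ1 := by rw [hδ]; exact min_le_left _ _
  rw [← hδ] at hT
  have hY1 : (1 : ℝ) ≤ (Y : ℝ) := by exact_mod_cast hY
  have hY0 : (0 : ℝ) < (Y : ℝ) := by linarith
  rcases Finset.eq_empty_or_nonempty T with h0 | ⟨p0, hp0⟩
  · rw [h0, Finset.card_empty, Nat.cast_zero]
    positivity
  obtain ⟨Z, hZ⟩ : ∃ Z : ℕ, Z = (16 * Y) ^ κ := ⟨_, rfl⟩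
  have hZ1 : 1 ≤ Z := by rw [hZ]; exact Nat.one_le_pow _ _ (by omega)
  obtain ⟨hLf, hLc⟩ := H Z hZ1
  obtain ⟨L, hL⟩ := hLf.exists_finset_coe
  rw [← hL, Set.ncard_coe_finset] at hLc
  obtain ⟨L2, hL2⟩ : ∃ L2 : Finset ℂ, L2 = L ∪ (L ×ˢ L).image fun q => q.1 * q.2 := ⟨_, rfl⟩
  obtain ⟨M, hM⟩ : ∃ M : ℕ, M = ⌊(Y : ℝ) ^ δ⌋₊ + 1 := ⟨_, rfl⟩
  have hYδ : (1 : ℝ) ≤ (Y : ℝ) ^ δ := Real.one_le_rpow hY1 hδ0.le
  have hMY : (M : ℝ) ≤ 2 * (Y : ℝ) ^ δ := by
    have h2 := Nat.floor_le (by positivity : (0 : ℝ) ≤ (Y : ℝ) ^ δ)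
    rw [hM]
    push_cast
    linarith
  -- the parametrisation
  have hsub : T ⊆ ((Finset.range M ×ˢ (insert 0 L)).image fun q => (q.1, q.2 - 1)) ∪
      ((Finset.range M ×ˢ (L2 ×ˢ (L2 ×ˢ L2))).image fun q => (q.1,
        (q.2.1 - q.2.2.1) / (1 - q.2.2.2 ^ q.1) *
          (q.2.1 - (q.2.1 - q.2.2.1) / (1 - q.2.2.2 ^ q.1)) ^ (q.1 - 1))) := by
    intro p hp
    obtain ⟨h1, h2, K, _, _, σ, a, b, h3, ha, hb, h4, h5, h6⟩ := hT p hp
    obtain ⟨d, t⟩ := p
    dsimp only at h1 h2 h4 h5 h6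
    have hd100 : 100 ≤ d := (le_max_right _ _).trans h1
    obtain ⟨S, hSf, hSi, hSc⟩ := normalise hb (by omega : 1 ≤ d) h6
    have hinv : Inv κ R1 δ1 Y d (a * b ^ (d - 1)) S :=
      ⟨hSf, hSi, mul_ne_zero ha (pow_ne_zero _ hb), by omega, (le_max_left _ _).trans h1,
        h2.trans (Real.rpow_le_rpow_of_exponent_le hY1 hδδ), h3, h5⟩
    have hdM : d ∈ Finset.range M := by
      rw [Finset.mem_range, hM]
      exact Nat.lt_succ_of_le (Nat.le_floor h2)
    have hcov : ∀ α : ℂ, (α ∈ (L : Set ℂ) ∨ ∃ q ∈ (L : Set ℂ), ∃ q' ∈ (L : Set ℂ), α = q * q') →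
        α ∈ L2 := by
      rintro α (h | ⟨q, hq, q', hq', rfl⟩)
      · rw [hL2]
        exact Finset.mem_union_left _ h
      · rw [hL2]
        exact Finset.mem_union_right _ (Finset.mem_image.2 ⟨(q, q'),
          Finset.mem_product.2 ⟨hq, hq'⟩, rfl⟩)
    rcases param hinv hY hδ1.le hZ hκ σ hSc L hL with (h7 | ⟨q, hq, h7⟩) | ⟨α, β, γ, h7, h8, h9, h10⟩
    · refine Finset.mem_union_left _ (Finset.mem_image.2 ⟨(d, 0), Finset.mem_product.2 ⟨hdM,
        Finset.mem_insert_self _ _⟩, ?_⟩)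
      rw [← h4, h7]
    · refine Finset.mem_union_left _ (Finset.mem_image.2 ⟨(d, q), Finset.mem_product.2 ⟨hdM,
        Finset.mem_insert_of_mem hq⟩, ?_⟩)
      rw [← h4, h7]
    · refine Finset.mem_union_right _ (Finset.mem_image.2 ⟨(d, (α, (β, γ))),
        Finset.mem_product.2 ⟨hdM, Finset.mem_product.2 ⟨hcov _ h7, Finset.mem_product.2
          ⟨hcov _ h8, hcov _ h9⟩⟩⟩, ?_⟩)
      rw [← h4, h10]
  -- the count
  have hcard : T.card ≤ M * (L.card + 1) + M * L2.card ^ 3 := by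
    refine (Finset.card_le_card hsub).trans ((Finset.card_union_le _ _).trans (Nat.add_le_add ?_ ?_))
    · refine Finset.card_image_le.trans ?_
      rw [Finset.card_product, Finset.card_range]
      exact Nat.mul_le_mul_left _ (Finset.card_insert_le _ _)
    · refine Finset.card_image_le.trans ?_
      rw [Finset.card_product, Finset.card_range, Finset.card_product, Finset.card_product]
      apply le_of_eq
      ring
  have hL2c : L2.card ≤ L.card + L.card ^ 2 := by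
    rw [hL2]
    refine (Finset.card_union_le _ _).trans (Nat.add_le_add_left ?_ _)
    refine Finset.card_image_le.trans ?_
    rw [Finset.card_product, pow_two]
  obtain ⟨Q, hQ⟩ : ∃ Q : ℝ, Q = (Z : ℝ) ^ η := ⟨_, rfl⟩
  have hZR : (1 : ℝ) ≤ (Z : ℝ) := by exact_mod_cast hZ1
  have hQ1 : 1 ≤ Q := by rw [hQ]; exact Real.one_le_rpow hZR hη0.le
  rw [← hQ] at hLc
  have hL2Q : (L2.card : ℝ) ≤ 2 * Q ^ 2 := by
    have h1 : (L2.card : ℝ) ≤ (L.card : ℝ) + (L.card : ℝ) ^ 2 := by exact_mod_cast hL2c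
    have h2 : (L.card : ℝ) ^ 2 ≤ Q ^ 2 := pow_le_pow_left₀ (Nat.cast_nonneg _) hLc 2
    nlinarith
  have hTc : (T.card : ℝ) ≤ 20 * (Y : ℝ) ^ δ * Q ^ 6 := by
    have h1 : (T.card : ℝ) ≤ (M : ℝ) * ((L.card : ℝ) + 1) + (M : ℝ) * (L2.card : ℝ) ^ 3 := by
      exact_mod_cast hcard
    have h2 : (L2.card : ℝ) ^ 3 ≤ (2 * Q ^ 2) ^ 3 := pow_le_pow_left₀ (Nat.cast_nonneg _) hL2Q 3
    have h3 : (2 * Q ^ 2) ^ 3 = 8 * Q ^ 6 := by ring
    have h4 : Q ≤ Q ^ 6 := le_self_pow₀ hQ1 (by norm_num)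
    have h5 : (1 : ℝ) ≤ Q ^ 6 := one_le_pow₀ hQ1
    have h6 : (L.card : ℝ) + 1 ≤ 2 * Q ^ 6 := by linarith
    calc (T.card : ℝ) ≤ (M : ℝ) * ((L.card : ℝ) + 1) + (M : ℝ) * (L2.card : ℝ) ^ 3 := h1
      _ ≤ (M : ℝ) * (2 * Q ^ 6) + (M : ℝ) * (8 * Q ^ 6) := by
          refine add_le_add (mul_le_mul_of_nonneg_left h6 (Nat.cast_nonneg _))
            (mul_le_mul_of_nonneg_left (h2.trans h3.le) (Nat.cast_nonneg _))
      _ = (M : ℝ) * (10 * Q ^ 6) := by ring
      _ ≤ (2 * (Y : ℝ) ^ δ) * (10 * Q ^ 6) := mul_le_mul_of_nonneg_right hMY (by positivity)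
      _ = _ := by ring
  have h100 : (100 : ℝ) ≤ (Y : ℝ) ^ δ := by
    obtain ⟨h1, h2, -⟩ := hT p0 hp0
    have h3 : 100 ≤ p0.1 := (le_max_right _ _).trans h1
    calc (100 : ℝ) ≤ (p0.1 : ℝ) := by exact_mod_cast h3
      _ ≤ _ := h2
  have hY2 : 2 ≤ Y := by
    by_contra h
    have h1 : Y = 1 := by omega
    rw [h1, Nat.cast_one, Real.one_rpow] at h100
    norm_num at h100
  have hZY : (Z : ℝ) ≤ (Y : ℝ) ^ ((5 : ℝ) * κ) := by
    have h1 : (16 : ℝ) * Y ≤ (Y : ℝ) ^ 5 := by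
      have h2 : (2 : ℝ) ≤ (Y : ℝ) := by exact_mod_cast hY2
      have h3 : (2 : ℝ) ^ 4 ≤ (Y : ℝ) ^ 4 := pow_le_pow_left₀ (by norm_num) h2 4
      calc (16 : ℝ) * Y = (2 : ℝ) ^ 4 * Y := by norm_num
        _ ≤ (Y : ℝ) ^ 4 * Y := mul_le_mul_of_nonneg_right h3 hY0.le
        _ = _ := by ring
    rw [hZ]
    push_cast
    calc ((16 : ℝ) * Y) ^ κ ≤ ((Y : ℝ) ^ 5) ^ κ := pow_le_pow_left₀ (by positivity) h1 κ
      _ = (Y : ℝ) ^ ((5 : ℝ) * κ) := by
          rw [← pow_mul, ← Real.rpow_natCast]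
          push_cast
          rfl
  have hQ6 : Q ^ 6 ≤ (Y : ℝ) ^ (ε / 2) := by
    calc Q ^ 6 = (Z : ℝ) ^ (η * 6) := by
          rw [hQ, ← Real.rpow_natCast, ← Real.rpow_mul (by positivity)]
          norm_num
      _ ≤ ((Y : ℝ) ^ ((5 : ℝ) * κ)) ^ (η * 6) :=
          Real.rpow_le_rpow (by positivity) hZY (by positivity)
      _ = (Y : ℝ) ^ (ε / 2) := by
          rw [← Real.rpow_mul hY0.le, hη]
          congr 1
          field_simp
          ring
  calc (T.card : ℝ) ≤ 20 * (Y : ℝ) ^ δ * Q ^ 6 := hTc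
    _ ≤ (Y : ℝ) ^ δ * (Y : ℝ) ^ δ * (Y : ℝ) ^ (ε / 2) := by
        refine mul_le_mul (mul_le_mul_of_nonneg_right (by linarith) (by positivity)) hQ6
          (by positivity) (by positivity)
    _ = (Y : ℝ) ^ (δ + δ + ε / 2) := by rw [← Real.rpow_add hY0, ← Real.rpow_add hY0]
    _ ≤ (Y : ℝ) ^ ε := Real.rpow_le_rpow_of_exponent_le hY1 (by linarith)

end Pool.Agent.Results.MP_13bc7b_nt.UnicriticalAllFields
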