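import Mathlib
import Pool.Agent.N891.OR.Uni
import Pool.Agent.N24.RW.All

/-!
# Uniform boundedness of preperiodic points along random orbits of thin groups

For all `N ≥ 1` and `d ≥ 2` there is ONE function `C` such that, for every number field `k`, the
endomorphisms of `ℙ^N` of degree `d` over `k` whose coefficient vectors are the successive points of the
random orbit of a vector under a group of integral matrices, possibly of infinite index in the special
linear group, have almost surely, for all `D` at the same time, at most `C(D)` preperiodic points in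
`ℙ^N(K)` for all number fields `K` containing `k` of degree at most `D` over `ℚ`, for 100% of the times.
The exceptional coefficient vectors form a pronull set.

Proof. The starting result `OneHundredPercent` is about boxes. Its proof (project UB of helper275) was
repeated by helper938 for abstract notions of density with Hilbert's irreducibility theorem
(`Pool.Agent.N938.TD`). The pronull sets are the null sets of such notions
(`Pool.Agent.N891.OR.Inst`, helper891, with `Pool.Agent.N455.HT`, helper455), and random orbits almost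
never visit them (`Pool.Agent.N24.RW`, project of helper24).
-/

set_option autoImplicit false

open MvPolynomial NumberField Filter Topology MeasureTheory
open Pool.Agent.N24.RW (ProNull Walk orb words)

namespace Pool.Agent.Results.MP_13bc7b_nt.UniformRandomOrbits

/-- The self-map of `K^(N+1)` given by forms `F` with coefficients in the ring of integers of `k`. -/
noncomputable def selfMap {k : Type} [Field k] [NumberField k] (K : Type) [Field K] [Algebra k K]
    {N : ℕ} (F : Fin (N + 1) → MvPolynomial (Fin (N + 1)) (𝓞 k)) (x : Fin (N + 1) → K) :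
    Fin (N + 1) → K :=
  fun i => eval x (map ((algebraMap k K).comp (algebraMap (𝓞 k) k)) (F i))

/-- `F` defines an endomorphism of `P^N` over `k`, and for all number fields `K` containing `k` of
degree at most `D` over `ℚ` it has at most `C` preperiodic points in `P^N(K)`: every finite set of
pairwise non proportional non zero vectors of `K^(N+1)` which are preperiodic up to scalars has at most
`C` elements. -/
def Bounded {k : Type} [Field k] [NumberField k] {N : ℕ} (D C : ℕ)
    (F : Fin (N + 1) → MvPolynomial (Fin (N + 1)) (𝓞 k)) : Prop :=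
  (∀ x : Fin (N + 1) → AlgebraicClosure k, selfMap (AlgebraicClosure k) F x = 0 → x = 0) ∧
    ∀ (K : Type) [Field K] [NumberField K] [Algebra k K], Module.finrank ℚ K ≤ D →
      ∀ X : Finset (Fin (N + 1) → K), (∀ x ∈ X, x ≠ 0) →
        (∀ x ∈ X, ∀ y ∈ X, ∀ c : K, x = c • y → x = y) →
        (∀ x ∈ X, ∃ m n : ℕ, m < n ∧ ∃ c : K, c ≠ 0 ∧
          (selfMap K F)^[n] x = c • (selfMap K F)^[m] x) → X.card ≤ C

/-- The exponent vectors of degree `d` in `N + 1` variables. -/
abbrev Exps (N d : ℕ) : Type := {κ : Fin (N + 1) → Fin (d + 1) // ∑ i, (κ i : ℕ) = d}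

/-- The system of `N + 1` forms of degree `d` in `N + 1` variables over the ring of integers of `k`
whose coefficients have the coordinates `c` with respect to the integral basis `ω`. -/
noncomputable def system {k : Type} [Field k] [NumberField k] {J : Type} [Fintype J]
    (ω : Module.Basis J ℤ (𝓞 k)) {N d : ℕ} (c : (Fin (N + 1) × Exps N d) × J → ℤ) :
    Fin (N + 1) → MvPolynomial (Fin (N + 1)) (𝓞 k) :=
  fun i => ∑ κ : Exps N d, monomial (Finsupp.equivFunOnFinite.symm fun l => (κ.1 l : ℕ))
    (∑ j, (c ((i, κ), j) : 𝓞 k) * ω j)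

/-- The property `p` holds for 100% of the natural numbers. -/
def MostTimes (p : ℕ → Prop) : Prop :=
  Tendsto (fun T : ℕ => (({n : ℕ | n < T ∧ p n}.ncard : ℕ) : ℝ) / (T : ℝ)) atTop (𝓝 1)

theorem most_of_never {p : ℕ → Prop}
    (h : Tendsto (fun N : ℕ => (({n : ℕ | n < N ∧ ¬ p n}.ncard : ℕ) : ℝ) / (N : ℝ)) atTop (𝓝 0)) :
    MostTimes p := by
  have h1 := h.const_sub 1
  rw [sub_zero] at h1
  refine h1.congr' ?_
  filter_upwards [eventually_ge_atTop 1] with N hN
  have hN0 : (N : ℝ) ≠ 0 := by
    have : (N : ℕ) ≠ 0 := by omega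
    exact_mod_cast this
  have h2 : {n : ℕ | n < N ∧ p n} ∪ {n : ℕ | n < N ∧ ¬ p n} = Set.Iio N := by
    ext n
    simp only [Set.mem_union, Set.mem_ofPred_eq, Set.mem_Iio]
    tauto
  have h3 : Disjoint {n : ℕ | n < N ∧ p n} {n : ℕ | n < N ∧ ¬ p n} := by
    rw [Set.disjoint_left]
    rintro n ⟨_, hn⟩ ⟨_, hn'⟩
    exact hn' hn
  have hf : ∀ q : ℕ → Prop, {n : ℕ | n < N ∧ q n}.Finite := fun q =>
    (Set.finite_Iio N).subset fun n hn => hn.1
  have h4 := Set.ncard_union_eq h3 (hf _) (hf _)
  rw [h2, Set.ncard_eq_toFinset_card', Set.toFinset_Iio, Nat.card_Iio] at h4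
  have h5 : (N : ℝ) = (({n : ℕ | n < N ∧ p n}.ncard : ℕ) : ℝ) +
      (({n : ℕ | n < N ∧ ¬ p n}.ncard : ℕ) : ℝ) := by exact_mod_cast h4
  rw [eq_div_iff hN0, sub_mul, div_mul_cancel₀ _ hN0]
  linarith

theorem exps_nonempty (N d : ℕ) : Nonempty (Exps N d) :=
  ⟨⟨Pi.single 0 (Fin.last d), by
    rw [Finset.sum_eq_single (0 : Fin (N + 1))]
    · simp
    · intro i _ hi
      simp [Pi.single_eq_of_ne hi]
    · intro h
      exact absurd (Finset.mem_univ _) h⟩⟩

theorem system_eq {k : Type} [Field k] [NumberField k] {J : Type} [Fintype J]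
    (ω : Module.Basis J ℤ (𝓞 k)) {N d : ℕ} (c : (Fin (N + 1) × Exps N d) × J → ℤ) :
    system ω c = Pool.Agent.W275.UB.Ph ω c := by
  funext i
  refine Finset.sum_congr rfl fun κ _ => ?_
  congr 1
  exact Finset.sum_congr rfl fun j _ => mul_comm _ _

/-- **Uniform boundedness along random orbits of thin groups.** Let `N ≥ 1` and `d ≥ 2`. There is a
function `C` such that for every number field `k` and every integral basis `ω = (ω_j)_(j in J)` of `k`:
(1) for every `D` the integral vectors `c` such that the system of `N + 1` forms of degree `d` with the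
coefficients given by `c` does not define an endomorphism of `ℙ^N`, or has more than `C(D)` preperiodic
points in `ℙ^N(K)` for some number field `K` containing `k` with `[K : ℚ] ≤ D`, form a pronull set;
(2) let `W` be a finite family of integral matrices of determinant one, of the size of the coefficient
vectors, which generates the special linear group modulo all `q` prime to some `q₀`, and let `v ≠ 0`.
For almost every infinite word in the matrices, for all `D` at the same time, the endomorphism with the
`n`-th point of the orbit of `v` as coefficient vector has at most `C(D)` preperiodic points in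
`ℙ^N(K)`, for all number fields `K` containing `k` with `[K : ℚ] ≤ D`, for 100% of the `n`. -/
theorem result (N d : ℕ) (hN : 1 ≤ N) (hd : 2 ≤ d) : ∃ C : ℕ → ℕ,
    ∀ (k : Type) [Field k] [NumberField k] (J : Type) [Fintype J] [DecidableEq J]
      (ω : Module.Basis J ℤ (𝓞 k)),
      (∀ D : ℕ, ProNull {c : (Fin (N + 1) × Exps N d) × J → ℤ | ¬ Bounded D (C D) (system ω c)}) ∧
      ∀ (W : Walk ((Fin (N + 1) × Exps N d) × J)) (v : (Fin (N + 1) × Exps N d) × J → ℤ), v ≠ 0 →
        ∀ᵐ w ∂(words W.m), ∀ D : ℕ,
          MostTimes fun n => Bounded D (C D) (system ω (orb W v w n)) := by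
  choose C hC using fun D => Pool.Agent.N891.OYU.uni N d D hd
  refine ⟨C, fun k _ _ J _ _ ω => ?_⟩
  have key : ∀ D : ℕ,
      ProNull {c : (Fin (N + 1) × Exps N d) × J → ℤ | ¬ Bounded D (C D) (system ω c)} := by
    intro D
    refine (Pool.Agent.N24.RW.clo _).1 _ _ ?_ (hC D (𝓞 k) J ω)
    intro c hc hB
    apply hc
    rw [system_eq]
    refine ⟨?_, ?_⟩
    · exact (hB (AlgebraicClosure k)
        ((algebraMap k (AlgebraicClosure k)).comp (algebraMap (𝓞 k) k))).1
    · intro K _ _ _ hK
      exact (hB K ((algebraMap k K).comp (algebraMap (𝓞 k) k))).2 inferInstance hK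
  refine ⟨key, fun W v hv => ?_⟩
  obtain ⟨j0⟩ : Nonempty J := ω.index_nonempty
  have hcard : 2 ≤ Fintype.card ((Fin (N + 1) × Exps N d) × J) := by
    have h1 : 0 < Fintype.card J := Fintype.card_pos_iff.2 ⟨j0⟩
    have h2 : 0 < Fintype.card (Exps N d) := Fintype.card_pos_iff.2 (exps_nonempty N d)
    rw [Fintype.card_prod, Fintype.card_prod, Fintype.card_fin]
    calc 2 ≤ (N + 1) := by omega
      _ = (N + 1) * 1 * 1 := by ring
      _ ≤ _ := Nat.mul_le_mul (Nat.mul_le_mul le_rfl h2) h1
  rw [ae_all_iff]
  intro D
  filter_upwards [Pool.Agent.N24.RW.main ((Fin (N + 1) × Exps N d) × J) hcard W v hv _ (key D)]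
    with w hw
  exact most_of_never hw

end Pool.Agent.Results.MP_13bc7b_nt.UniformRandomOrbits
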